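import Pool.Agent.J4H95.SP.T4
import Pool.Agent.J4H18.IS.Or

set_option autoImplicit false

/-! Project KS: sparsification of k-CNFs in constant depth, definitions and exact statements. -/

namespace Pool.Agent.J4H95.KS

open Finset Pool.Agent.J4H64.SS Pool.Agent.J4H95.SP

section Comb

variable {V : Type} [DecidableEq V]

/-- minimal edges -/
def Mn (F : Finset V → Prop) (e : Finset V) : Prop := F e ∧ ∀ e', e' ⊂ e → ¬ F e'

/-- every element is in at most `C` minimal edges of size at most `j` -/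
def Spr (j C : ℕ) (F : Finset V → Prop) : Prop :=
  ∀ (v : V) (E : Finset (Finset V)), (∀ e ∈ E, Mn F e ∧ e.card ≤ j ∧ v ∈ e) → E.card ≤ C

/-- an instruction: its level, its kind, and two sets of elements -/
structure Ins (V : Type) where
  j : ℕ
  b : Bool
  Y : Finset V
  P : Finset V

/-- heavy hearts: `t` disjoint petals outside `X` -/
def Hv (t j : ℕ) (X : Finset V) (F : Finset V → Prop) (s : Finset V) : Prop :=
  s.Nonempty ∧ ∃ f : Fin t → Finset V, (∀ i, (f i).Nonempty) ∧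
    (∀ i i', i ≠ i' → Disjoint (f i) (f i')) ∧
    ∀ i, Disjoint (f i) s ∧ Disjoint (f i) X ∧ Mn F (s ∪ f i) ∧ (s ∪ f i).card = j

/-- the effect of an instruction -/
def Mv (θ : ℕ → ℕ) (i : Ins V) (F : Finset V → Prop) (s : Finset V) : Prop :=
  F s ∨ (∃ e, F e ∧ e.card ≤ i.j ∧ s ⊆ e ∧ e \ s ⊆ i.Y) ∨
    (i.b = true ∧ ((∃ v ∈ i.P, s = {v}) ∨ Hv (θ i.j) i.j (i.Y ∪ i.P) F s))

/-- a sequence of instructions -/
def run (θ : ℕ → ℕ) : List (Ins V) → (Finset V → Prop) → Finset V → Prop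
  | [], F => F
  | i :: L, F => run θ L (Mv θ i F)

/-- the total size of the sets -/
def cost (L : List (Ins V)) : ℕ := (L.map fun i => i.Y.card + i.P.card).sum

/-- the output -/
def Ou (θ : ℕ → ℕ) (k C : ℕ) (L : List (Ins V)) (F : Finset V → Prop) (s : Finset V) : Prop :=
  (Spr k C (run θ L F) ∧ Mn (run θ L F) s) ∨ (¬ Spr k C (run θ L F) ∧ s = ∅)

open Classical in
/-- number of colourings (colours `0, …, q`) such that every edge of size at most `i` has an element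
of non-zero colour -/
noncomputable def cnt [Fintype V] (q i : ℕ) (F : Finset V → Prop) : ℕ :=
  (univ.filter (fun c : V → Fin (q + 1) => ∀ e, F e → e.card ≤ i → ∃ v ∈ e, c v ≠ 0)).card

end Comb

/-- (KS1) bounds for the counts -/
def S_KS1 : Prop :=
  ∀ (V : Type) [Fintype V] [DecidableEq V] (q i : ℕ) (F F' : Finset V → Prop),
    (¬ F ∅ → q ^ Fintype.card V ≤ cnt q i F) ∧ cnt q i F ≤ (q + 1) ^ Fintype.card V ∧
    ((∀ e, F e → F' e) → cnt q i F' ≤ cnt q i F)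

/-- (KS2) the drop of the count -/
def S_KS2 : Prop :=
  ∀ (V : Type) [Fintype V] [DecidableEq V] (q i C : ℕ), 1 ≤ q → i * i * C ≤ q →
    ∀ (F F' : Finset V → Prop) (M : Finset (Finset V)), Spr i C F →
      (∀ p ∈ M, p.Nonempty ∧ p.card ≤ i ∧ ∀ e, F e → ¬ e ⊆ p) →
      (∀ p ∈ M, ∀ p' ∈ M, p ≠ p' → Disjoint p p') →
      (∀ e, F e → F' e) → (∀ p ∈ M, F' p) →
      (cnt q i F' : ℝ) ≤ (1 - 1 / (4 * ((q : ℝ) + 1) ^ i)) ^ M.card * (cnt q i F : ℝ)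

/-- (KS3) sparsity after the last phase -/
def S_KS3 : Prop :=
  ∀ (V : Type) [Fintype V] [DecidableEq V] (θ : ℕ → ℕ) (j C : ℕ), 2 ≤ j → (∀ i, 1 ≤ θ i) →
    ∀ (F : Finset V → Prop) (Y P : Finset V) (L : List (Ins V)),
      (∀ i ∈ L, 2 ≤ i.j ∧ i.j < j) →
      Spr (j - 1) C (run θ L (Mv θ ⟨j, true, Y, P⟩ F)) →
      Spr j (C + (j * θ j) ^ (j - 1)) (run θ L (Mv θ ⟨j, true, Y, P⟩ F))

/-- (KS4) one phase (from KS2) -/
def S_KS4 : Prop :=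
  ∀ (V : Type) [Fintype V] [DecidableEq V] (θ : ℕ → ℕ) (j C q : ℕ), 2 ≤ j → (∀ i, 1 ≤ θ i) →
    1 ≤ q → j * j * C ≤ q →
    ∀ (F : Finset V → Prop) (T : Finset V) (h : ℝ), 0 ≤ h → Hits T F → Spr (j - 1) C F →
      (∃ Y P : Finset V, Hits T (Mv θ ⟨j, true, Y, P⟩ F) ∧ (Y.card : ℝ) + P.card ≤ j * h) ∨
      ∃ (Y : Finset V) (M : ℕ), h < M ∧ Hits T (Mv θ ⟨j, false, Y, ∅⟩ F) ∧
        Y.card * θ j ≤ j * M ∧
        (cnt q (j - 1) (Mv θ ⟨j, false, Y, ∅⟩ F) : ℝ) ≤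
          (1 - 1 / (4 * ((q : ℝ) + 1) ^ (j - 1))) ^ M * (cnt q (j - 1) F : ℝ)

/-- what the recursion gives at level `j` -/
def PP (V : Type) [Fintype V] [DecidableEq V] (θ : ℕ → ℕ) (Po : (Finset V → Prop) → ℝ)
    (j C x Λ : ℕ) : Prop :=
  ∀ (F : Finset V → Prop) (T : Finset V), Hits T F → ∃ L : List (Ins V),
    (∀ i ∈ L, 2 ≤ i.j ∧ i.j ≤ j) ∧ L.length ≤ Λ ∧ Hits T (run θ L F) ∧ Spr j C (run θ L F) ∧
    (cost L : ℝ) ≤ (Fintype.card V : ℝ) / x + (Po F - Po (run θ L F))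

/-- the number of rounds -/
def rr (j x q : ℕ) : ℕ := 8 * j * x * (q + 1) ^ (j - 1)

/-- (KS5) from level `j - 1` to level `j` (from KS1, KS3, KS4) -/
def S_KS5 : Prop :=
  ∀ (V : Type) [Fintype V] [DecidableEq V] (θ : ℕ → ℕ) (Po : (Finset V → Prop) → ℝ)
    (j C q x Λ : ℕ), 2 ≤ j → (∀ i, 1 ≤ θ i) → 1 ≤ q → j * j * C ≤ q → 1 ≤ x →
    (∀ F F' : Finset V → Prop, (∀ e, F e → F' e) → ¬ F' ∅ →
      4 * j * ((q : ℝ) + 1) ^ (j - 1) / θ j *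
        (Real.log (cnt q (j - 1) F) - Real.log (cnt q (j - 1) F')) ≤ Po F - Po F') →
    PP V θ Po (j - 1) C (2 * x * (rr j x q + 2)) Λ →
    PP V θ Po j (C + (j * θ j) ^ (j - 1)) x ((rr j x q + 2) * (Λ + 1))

/-- the sparsity constant of level `j + 1` -/
def Cc (k g : ℕ) : ℕ → ℕ
  | 0 => 1
  | j + 1 => Cc k g j + ((j + 2) * (8 * k ^ 2 * g * (k ^ 2 * Cc k g j + 2) ^ k)) ^ (j + 1)

/-- the number of colours of level `j`, minus one -/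
def qu (k g j : ℕ) : ℕ := k ^ 2 * Cc k g (j - 2) + 1

/-- the threshold of level `j` -/
def th (k g j : ℕ) : ℕ := 8 * k ^ 2 * g * (k ^ 2 * Cc k g (j - 2) + 2) ^ k

/-- the number of instructions at level `j + 1` -/
def La (k g : ℕ) : ℕ → ℕ → ℕ
  | 0, _ => 0
  | j + 1, x => (rr (j + 2) x (qu k g (j + 2)) + 2) *
      (La k g j (2 * x * (rr (j + 2) x (qu k g (j + 2)) + 2)) + 1)

/-- (KS6) every hitting set is found by a branch (from KS1, KS5) -/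
def S_KS6 : Prop :=
  ∀ (V : Type) [Fintype V] [DecidableEq V] (k g : ℕ), 1 ≤ k → 1 ≤ g →
    ∀ (F : Finset V → Prop) (T : Finset V), Hits T F → ∃ L : List (Ins V),
      (∀ i ∈ L, 2 ≤ i.j ∧ i.j ≤ k) ∧ L.length ≤ La k g (k - 1) g ∧ Hits T (run (th k g) L F) ∧
      Spr k (Cc k g (k - 1)) (run (th k g) L F) ∧ g * cost L ≤ 2 * Fintype.card V

/-- (KS7) polynomial in `g` -/
def S_KS7 : Prop := ∀ k : ℕ, ∃ A : ℕ, ∀ g : ℕ, 2 ≤ g → La k g (k - 1) g ≤ g ^ A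

/-- (KS8) the number of branches -/
def S_KS8 : Prop :=
  ∀ (k A : ℕ) (ε : ℝ), 0 < ε → ∃ g : ℕ, 2 ≤ g ∧ ∀ Λ : ℕ, Λ ≤ g ^ A → ∃ N₀ : ℕ, ∀ n : ℕ, N₀ ≤ n →
    ((Fintype.card ((Fin Λ → Fin (k + 1) × Bool) ×
      {S : Finset (Fin Λ × Bool × (Fin n × Bool)) // g * S.card ≤ 2 * (2 * n)}) : ℕ) : ℝ) ≤
      (2 : ℝ) ^ (ε * (n : ℝ))

/-- the sequence of instructions of a branch -/
def dec {V : Type} [Fintype V] [DecidableEq V] {k Λ : ℕ} (lab : Fin Λ → Fin (k + 1) × Bool)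
    (S : Finset (Fin Λ × Bool × V)) : List (Ins V) :=
  List.ofFn (fun i => ⟨(lab i).1.1, (lab i).2, univ.filter (fun v => (i, true, v) ∈ S),
    univ.filter (fun v => (i, false, v) ∈ S)⟩)

/-- (KS9) encoding -/
def S_KS9 : Prop :=
  ∀ (V : Type) [Fintype V] [DecidableEq V] (k Λ : ℕ) (L : List (Ins V)), L.length ≤ Λ →
    (∀ i ∈ L, i.j ≤ k) → ∃ (lab : Fin Λ → Fin (k + 1) × Bool) (S : Finset (Fin Λ × Bool × V)),
      S.card ≤ cost L ∧ ∀ (θ : ℕ → ℕ) (F : Finset V → Prop), run θ (dec lab S) F = run θ L F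

/-- clauses of at most `k` literals -/
abbrev CL (k n : ℕ) : Type := {c : Finset (Fin n × Bool) // c.card ≤ k}

/-- `a` satisfies every clause of `x` -/
def ByK {k n : ℕ} (a : Fin n → Bool) (x : CL k n → Bool) : Prop :=
  ∀ c : CL k n, x c = true → ∃ l ∈ c.1, a l.1 = l.2

/-- satisfiability -/
def SatK {k n : ℕ} (x : CL k n → Bool) : Prop := ∃ a : Fin n → Bool, ByK a x

/-- the hypergraph of an indicator vector -/
def HyK {k n : ℕ} (x : CL k n → Bool) (e : Finset (Fin n × Bool)) : Prop :=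
  ∃ h : e.card ≤ k, x ⟨e, h⟩ = true

/-- (KS10) the output of a branch is computed by trees of constant depth -/
def S_KS10 : Prop :=
  ∀ (k C Λ : ℕ) (θ : ℕ → ℕ), ∃ K d : ℕ, ∀ (n : ℕ), 1 ≤ n → ∀ (L : List (Ins (Fin n × Bool))),
    L.length ≤ Λ → (∀ i ∈ L, i.j ≤ k) → ∀ s : Finset (Fin n × Bool), s.card ≤ k →
      AC ((2 * n) ^ K) d (fun x : CL k n → Bool => Ou θ k C L (HyK x) s)

/-- the sparsification of `k`-CNFs -/
def SpK (k : ℕ) : Prop :=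
  ∀ ε : ℝ, 0 < ε → ∃ c K d : ℕ, ∀ n : ℕ, 1 ≤ n →
    ∃ (s : ℕ) (ψ : Fin s → (CL k n → Bool) → CL k n → Bool), (s : ℝ) ≤ (2 : ℝ) ^ (ε * (n : ℝ)) ∧
      (∀ t q, AC ((2 * n) ^ K) d (fun x => ψ t x q = true)) ∧
      (∀ t x (l : Fin n × Bool),
        (univ.filter (fun q : CL k n => ψ t x q = true ∧ l ∈ q.1)).card ≤ c) ∧
      (∀ t x a, ByK a (ψ t x) → ByK a x) ∧ ∀ x a, ByK a x → ∃ t, ByK a (ψ t x)

/-- (KS11) assembly of the sparsification (small `n`: the identity) -/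
def S_KS11 : Prop :=
  S_KS6 → S_KS7 → S_KS8 → S_KS9 → S_KS10 → ∀ k : ℕ, 1 ≤ k → SpK k

/-- (KS12) sparse `k`-CNFs to 3-CNFs, locally -/
def S_KS12 : Prop :=
  ∀ k c : ℕ, ∃ a K d : ℕ, 1 ≤ a ∧ ∀ n : ℕ, 1 ≤ n → ∃ y : (CL k n → Bool) → Cl (a * n) → Bool,
    (∀ q, AC ((2 * n) ^ K) d (fun x : CL k n → Bool => y x q = true)) ∧
    ∀ x : CL k n → Bool,
      (∀ l : Fin n × Bool, (univ.filter (fun q : CL k n => x q = true ∧ l ∈ q.1)).card ≤ c) →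
      (Sat (y x) ↔ SatK x)

/-- Hypothesis H for `k`-CNFs -/
def HypK (k : ℕ) : Prop :=
  ∃ δ : ℝ, 0 < δ ∧ ∀ d N₀ : ℕ, ∃ n : ℕ, N₀ ≤ n ∧ 1 ≤ n ∧
    ¬ ∃ C : Circ (CL k n), C.WF ∧ C.Depth d ∧
      ((Fintype.card (CL k n) : ℝ) + (C.m : ℝ) ≤ (2 : ℝ) ^ (δ * (n : ℝ))) ∧
      ∀ x : CL k n → Bool, C.Acc x ↔ SatK x

/-- (KS13) from `k`-CNFs to 3-CNFs -/
def S_KS13 : Prop := S_KS12 → ∀ k : ℕ, 1 ≤ k → SpK k → HypK k → HypH

/-- (KS14) from 3-CNFs to `k`-CNFs -/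
def S_KS14 : Prop := ∀ k : ℕ, 3 ≤ k → HypH → HypK k

end Pool.Agent.J4H95.KS
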